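import Pool.Agent.W_448ks_h61.KsA

/-!
MP_448cb3_co, G2, case B, Route T, block (K): the two sums, `sum5` and `sum6`.  helper61 (text: helper10).
-/

namespace Pool.Agent.GaussPoset.Win.Kd

set_option linter.unusedSectionVars false
set_option linter.unusedVariables false

open Finset
open Pool.Agent.GaussPoset.Win.W4 (RK GK JK mem_RK RK_near JK_zero JK_dvd ZC_coresK)
open Pool.Agent.GaussPoset.Win.I2 (coeff_zero_of_dvd dvd_of_coeff)

universe u

variable {P : Type u} [Fintype P] [PartialOrder P] [DecidableEq P] {r i : ℕ}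
  {e f : P → ℕ} {psi : P → P} {C K : Finset P}

section

variable (H : Gr P r) (hi : 1 ≤ i) (hi2 : i + 1 ≤ r) (hM : Mat P i K psi) (hC : Part (i + 1) C)
include H hi hi2 hM hC

lemma part_of : Part i C :=
  ⟨fun h1 h2 => hC.up h1 h2, fun h1 h2 h3 => hC.dn h1 (by omega) h3⟩

/-- if every configuration of energy `n` is cheap then the window sum is divisible -/
theorem ZC_dvd_of {n k : ℕ} (hc : ∀ e, Spt C e → ∑ y, e y = n → Cheap k i e) :
    dd ^ ((st i C).card - k) ∣ ZC i C n := by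
  unfold ZC
  refine dvd_sum fun e he => ?_
  rw [I2.mem_pa] at he
  exact tC_dvd H hi hi2 hM hC he.2 (hc e he.2 he.1)

/-- the near elements at `x` -/
lemma at_upp {x : P} (hN : ∀ z, (z ⋖ x ∨ x ⋖ z) → z ∈ dbL P i ∪ dbU P i ∧ z ∉ K) (hx : lev x = i) :
    ∀ u ∈ uc x, u ∈ dbU P i ∧ u ∉ K := by
  intro u hu
  obtain ⟨h1, h2⟩ := hN u (Or.inr (mem_uc.1 hu))
  refine ⟨?_, h2⟩
  have hl := lev_uc H hu
  rcases mem_union.1 h1 with h | h
  · have := (mem_dbL.1 h).1
    omega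
  · exact h

lemma at_low {x : P} (hN : ∀ z, (z ⋖ x ∨ x ⋖ z) → z ∈ dbL P i ∪ dbU P i ∧ z ∉ K) (hx : lev x = i) :
    ∀ u ∈ dc x, u ∈ dbL P i ∧ u ∉ K := by
  intro u hu
  obtain ⟨h1, h2⟩ := hN u (Or.inl (mem_dc.1 hu))
  refine ⟨?_, h2⟩
  have hl := lev_dc H hu
  rcases mem_union.1 h1 with h | h
  · exact h
  · have := (mem_dbU.1 h).1
    omega

variable {d w w2 p x q : P}

open Classical in
lemma sumU (hN : ∀ z, (z ⋖ x ∨ x ⋖ z) → z ∈ dbL P i ∪ dbU P i ∧ z ∉ K) {a m s n : ℕ}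
    (hn : a + m = n) (ht : ∀ e, Spt C e → ∑ y, e y = n → dd ^ s ∣ tC i C e) :
    dd ^ (s + 1) ∣ ∑ e ∈ ((C.piAntidiag a).filter (IsCore i K psi)).filter
      (fun e => XcU i d w w2 p x q e), JK i K psi C m e := by
  by_cases h : ∃ e, XcU i d w w2 p x q e
  · obtain ⟨e, he⟩ := h
    obtain ⟨-, -, lx, -⟩ := he.lv H
    exact (cls_upp H hM (part_of H hi hi2 hM hC) lx he.ld (at_low H hi hi2 hM hC hN lx)).sum H
      (by omega) (part_of H hi hi2 hM hC) hn ht
  · rw [filter_false_of_mem fun e _ he => h ⟨e, he⟩, sum_empty]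
    exact dvd_zero _

open Classical in
lemma sumL (hN : ∀ z, (z ⋖ x ∨ x ⋖ z) → z ∈ dbL P i ∪ dbU P i ∧ z ∉ K) {a m s n : ℕ}
    (hn : a + m = n) (ht : ∀ e, Spt C e → ∑ y, e y = n → dd ^ s ∣ tC i C e) :
    dd ^ (s + 1) ∣ ∑ e ∈ ((C.piAntidiag a).filter (IsCore i K psi)).filter
      (fun e => XcL i d w w2 p x q e), JK i K psi C m e := by
  by_cases h : ∃ e, XcL i d w w2 p x q e
  · obtain ⟨e, he⟩ := h
    obtain ⟨-, -, lx, -⟩ := he.lv H
    exact (cls_low H hM (part_of H hi hi2 hM hC) lx he.ld (at_upp H hi hi2 hM hC hN lx)).sum H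
      (by omega) (part_of H hi hi2 hM hC) hn ht
  · rw [filter_false_of_mem fun e _ he => h ⟨e, he⟩, sum_empty]
    exact dvd_zero _

open Classical in
lemma sumL0 {E : P} (hE : lev E = i + 2) (hne : E ≠ d)
    (hN : ∀ z, (z ⋖ x ∨ x ⋖ z) → z ∈ dbL P i ∪ dbU P i ∧ z ∉ K) {a m s n : ℕ}
    (hn : a + m = n) (ht : ∀ e, Spt C e → ∑ y, e y = n → dd ^ s ∣ tC i C e) :
    dd ^ (s + 1) ∣ ∑ e ∈ ((C.piAntidiag a).filter (IsCore i K psi)).filter
      (fun e => XcL i d w w2 p x q e ∧ e E = 0), JK i K psi C m e := by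
  by_cases h : ∃ e, XcL i d w w2 p x q e
  · obtain ⟨e, he⟩ := h
    obtain ⟨-, -, lx, -⟩ := he.lv H
    have h1 := (cls_low0 (w := w) (w2 := w2) (p := p) (q := q) H hM (part_of H hi hi2 hM hC) lx
      he.ld (at_upp H hi hi2 hM hC hN lx) hE hne).sum H (by omega) (part_of H hi hi2 hM hC) hn ht
    convert h1
  · rw [filter_false_of_mem fun e _ he => h ⟨e, he.1⟩, sum_empty]
    exact dvd_zero _

/-- THE SUMS FOR FIVE SITES -/
theorem sum5 (hb : (st i C).card = 5)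
    (hc : ∀ e : P → ℕ, Spt C e → ∑ y, e y ≤ 7 → Cheap 3 i e)
    (hN : ∀ z, (z ⋖ x ∨ x ⋖ z) → z ∈ dbL P i ∪ dbU P i ∧ z ∉ K)
    (hx : ∀ e : P → ℕ, IsCore i K psi e → Spt C e → ∑ y, e y ≤ 6 → ¬ Cheap 2 i e →
      XcU i d w w2 p x q e) : dd ^ 3 ∣ ZC i C 6 ∧ dd ^ 2 ∣ ZC i C 7 := by
  classical
  have hir : i ≤ r := by omega
  have hC' := part_of H hi hi2 hM hC
  constructor
  · rw [ZC_coresK H hir K psi hC' 6]
    refine dvd_sum fun a ha => ?_
    rw [mem_range] at ha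
    rw [← sum_filter_add_sum_filter_not _ (fun e => XcU i d w w2 p x q e)]
    refine dvd_add ?_ (dvd_sum fun e he => ?_)
    · refine sumU H hi hi2 hM hC (s := 2) (n := 6) hN (by omega) ?_
      intro e h1 h2
      have h3 := tC_dvd H hi hi2 hM hC h1 (hc e h1 (by omega))
      rw [hb] at h3
      exact h3
    · rw [mem_filter, mem_filter, I2.mem_pa] at he
      obtain ⟨⟨⟨h1, h2⟩, h3⟩, h4⟩ := he
      have h5 : Cheap 2 i e := by
        by_contra h5
        exact h4 (hx e h3 h2 (by omega) h5)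
      have h6 := JK_dvd H hi hi2 hM hC (Rk_of_cheap h5) (6 - a)
      rw [hb] at h6
      exact h6
  · have h1 := ZC_dvd_of H hi hi2 hM hC (n := 7) (k := 3) fun e h1 h2 => hc e h1 (by omega)
    rw [hb] at h1
    exact h1

variable {v u u2 E E2 : P}

open Classical in
/-- the cores of one energy, six sites -/
theorem sum6_core (hb : (st i C).card = 6)
    (hc : ∀ e : P → ℕ, Spt C e → ∑ y, e y ≤ 10 → Cheap 4 i e)
    (hN : ∀ z, (z ⋖ x ∨ x ⋖ z) → z ∈ dbL P i ∪ dbU P i ∧ z ∉ K)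
    (hx : ∀ e : P → ℕ, IsCore i K psi e → Spt C e → ∑ y, e y ≤ 8 → ¬ Cheap 3 i e →
      XcU i v u u2 p x q e ∨ XcL i E w w2 p x q e ∨ (XcL i E2 w w2 p x q e ∧ e E = 0) ∨ e = f)
    (hEE : E ≠ E2) (hE : lev E = i + 2) (hE2 : E2 ∈ dc w) (hwx : w ∈ dc x)
    (fc : IsCore i K psi f) (fs : Spt C f) (f8 : ∑ y, f y = 8) (fE : f E = 1) (fE2 : f E2 = 2)
    (fw : f w = 1) {a m n : ℕ} (hn : a + m = n) (ha : a ≤ 8) (hn10 : n ≤ 10) :
    dd ^ 3 ∣ ∑ e ∈ ((C.piAntidiag a).filter (IsCore i K psi)), JK i K psi C m e -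
      (if a = 8 then JK i K psi C m f else 0) := by
  classical
  have hir : i ≤ r := by omega
  have hC' := part_of H hi hi2 hM hC
  have ht : ∀ e : P → ℕ, Spt C e → ∑ y, e y = n → dd ^ 2 ∣ tC i C e := by
    intro e h1 h2
    have h3 := tC_dvd H hi hi2 hM hC h1 (hc e h1 (by omega))
    rw [hb] at h3
    exact h3
  have hA := sumU H hi hi2 hM hC (d := v) (w := u) (w2 := u2) (p := p) (q := q) hN hn ht
  have hB := sumL H hi hi2 hM hC (d := E) (w := w) (w2 := w2) (p := p) (q := q) hN hn ht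
  have hC0 := sumL0 H hi hi2 hM hC (d := E2) (w := w) (w2 := w2) (p := p) (q := q) hE hEE hN hn ht
  -- the classes are disjoint
  have dAB : ∀ e, XcU i v u u2 p x q e → ¬ XcL i E w w2 p x q e := by
    intro e h1 h2
    have h3 := h2.u0 u (by rw [h1.ucx]; simp)
    have h4 := h1.lab
    unfold Lab at h4
    omega
  have dAC : ∀ e, XcU i v u u2 p x q e → ¬ (XcL i E2 w w2 p x q e ∧ e E = 0) := by
    rintro e h1 ⟨h2, -⟩
    have h3 := h2.u0 u (by rw [h1.ucx]; simp)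
    have h4 := h1.lab
    unfold Lab at h4
    omega
  have dBC : ∀ e, XcL i E w w2 p x q e → ¬ (XcL i E2 w w2 p x q e ∧ e E = 0) := by
    rintro e h1 ⟨-, h2⟩
    have := h1.lab.one
    omega
  have fA : ¬ XcU i v u u2 p x q f := by
    intro h1
    have := h1.u0 w hwx
    omega
  have fB : ¬ XcL i E w w2 p x q f := by
    intro h1
    have := h1.o1 E2 (mem_union_left _ hE2) hEE.symm
    omega
  have fC : ¬ (XcL i E2 w w2 p x q f ∧ f E = 0) := by
    rintro ⟨-, h1⟩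
    omega
  set S := (C.piAntidiag a).filter (IsCore i K psi) with hS
  have split : ∑ e ∈ S, JK i K psi C m e =
      ∑ e ∈ S.filter (fun e => XcU i v u u2 p x q e), JK i K psi C m e +
      (∑ e ∈ S.filter (fun e => XcL i E w w2 p x q e), JK i K psi C m e +
      (∑ e ∈ S.filter (fun e => XcL i E2 w w2 p x q e ∧ e E = 0), JK i K psi C m e +
      ∑ e ∈ S.filter (fun e => ¬ XcU i v u u2 p x q e ∧ ¬ XcL i E w w2 p x q e ∧
        ¬ (XcL i E2 w w2 p x q e ∧ e E = 0)), JK i K psi C m e)) := by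
    rw [sum_filter (s := S), sum_filter (s := S), sum_filter (s := S), sum_filter (s := S),
      ← sum_add_distrib, ← sum_add_distrib, ← sum_add_distrib]
    refine sum_congr rfl fun e _ => ?_
    by_cases h1 : XcU i v u u2 p x q e
    · rw [if_pos h1, if_neg (dAB e h1), if_neg (dAC e h1), if_neg (fun h => h.1 h1)]
      ring
    · by_cases h2 : XcL i E w w2 p x q e
      · rw [if_neg h1, if_pos h2, if_neg (dBC e h2), if_neg (fun h => h.2.1 h2)]
        ring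
      · by_cases h3 : XcL i E2 w w2 p x q e ∧ e E = 0
        · rw [if_neg h1, if_neg h2, if_pos h3, if_neg (fun h => h.2.2 h3)]
          ring
        · rw [if_neg h1, if_neg h2, if_neg h3, if_pos ⟨h1, h2, h3⟩]
          ring
  set R := S.filter (fun e => ¬ XcU i v u u2 p x q e ∧ ¬ XcL i E w w2 p x q e ∧
        ¬ (XcL i E2 w w2 p x q e ∧ e E = 0)) with hR
  have rest : dd ^ 3 ∣ ∑ e ∈ R.erase f, JK i K psi C m e := by
    refine dvd_sum fun e he => ?_
    rw [mem_erase, hR, mem_filter, hS, mem_filter, I2.mem_pa] at he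
    obtain ⟨h0, ⟨⟨h1, h2⟩, h3⟩, h4, h5, h6⟩ := he
    have h7 : Cheap 3 i e := by
      by_contra h7
      rcases hx e h3 h2 (by omega) h7 with h | h | h | h
      · exact h4 h
      · exact h5 h
      · exact h6 h
      · exact h0 h
    have h8 := JK_dvd H hi hi2 hM hC (Rk_of_cheap h7) m
    rw [hb] at h8
    exact h8
  have hfin : ∑ e ∈ R, JK i K psi C m e - (if a = 8 then JK i K psi C m f else 0) =
      ∑ e ∈ R.erase f, JK i K psi C m e := by
    split_ifs with h8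
    · have hfR : f ∈ R := by
        rw [hR, mem_filter, hS, mem_filter, I2.mem_pa]
        exact ⟨⟨⟨by rw [f8, h8], fs⟩, fc⟩, fA, fB, fC⟩
      rw [← add_sum_erase R _ hfR]
      ring
    · have hfR : f ∉ R := by
        rw [hR, mem_filter, hS, mem_filter, I2.mem_pa]
        rintro ⟨⟨⟨h1, -⟩, -⟩, -⟩
        omega
      rw [erase_eq_of_notMem hfR, sub_zero]
  rw [split]
  have e1 : ∀ x1 x2 x3 x4 x5 : A, x1 + (x2 + (x3 + x4)) - x5 = x1 + (x2 + (x3 + (x4 - x5))) := by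
    intro x1 x2 x3 x4 x5
    ring
  rw [e1, hfin]
  exact dvd_add hA (dvd_add hB (dvd_add hC0 rest))

/-- THE SUMS FOR SIX SITES -/
theorem sum6 (hb : (st i C).card = 6)
    (hc : ∀ e : P → ℕ, Spt C e → ∑ y, e y ≤ 10 → Cheap 4 i e)
    (hN : ∀ z, (z ⋖ x ∨ x ⋖ z) → z ∈ dbL P i ∪ dbU P i ∧ z ∉ K)
    (hx : ∀ e : P → ℕ, IsCore i K psi e → Spt C e → ∑ y, e y ≤ 8 → ¬ Cheap 3 i e →
      XcU i v u u2 p x q e ∨ XcL i E w w2 p x q e ∨ (XcL i E2 w w2 p x q e ∧ e E = 0) ∨ e = f)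
    (hEE : E ≠ E2) (hE : lev E = i + 2) (hE2 : E2 ∈ dc w) (hwx : w ∈ dc x)
    (fc : IsCore i K psi f) (fs : Spt C f) (f8 : ∑ y, f y = 8) (fE : f E = 1) (fE2 : f E2 = 2)
    (fw : f w = 1) (fv : PowerSeries.coeff 2 (tC i C f) = 1) :
    dd ^ 3 ∣ ZC i C 7 ∧ dd ^ 2 ∣ ZC i C 9 ∧ dd ^ 2 ∣ ZC i C 10 ∧
      PowerSeries.coeff 2 (ZC i C 8) = 1 := by
  classical
  have hir : i ≤ r := by omega
  have hC' := part_of H hi hi2 hM hC
  have key : ∀ {a m n : ℕ}, a + m = n → a ≤ 8 → n ≤ 10 →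
      dd ^ 3 ∣ ∑ e ∈ ((C.piAntidiag a).filter (IsCore i K psi)), JK i K psi C m e -
        (if a = 8 then JK i K psi C m f else 0) := fun h1 h2 h3 =>
    sum6_core H hi hi2 hM hC hb hc hN hx hEE hE hE2 hwx fc fs f8 fE fE2 fw h1 h2 h3
  refine ⟨?_, ?_, ?_, ?_⟩
  · rw [ZC_coresK H hir K psi hC' 7]
    refine dvd_sum fun a ha => ?_
    rw [mem_range] at ha
    have h1 := key (a := a) (m := 7 - a) (n := 7) (by omega) (by omega) (by omega)
    rw [if_neg (by omega), sub_zero] at h1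
    exact h1
  · have h1 := ZC_dvd_of H hi hi2 hM hC (n := 9) (k := 4) fun e h1 h2 => hc e h1 (by omega)
    rw [hb] at h1
    exact h1
  · have h1 := ZC_dvd_of H hi hi2 hM hC (n := 10) (k := 4) fun e h1 h2 => hc e h1 (by omega)
    rw [hb] at h1
    exact h1
  · have h1 : dd ^ 3 ∣ ZC i C 8 - tC i C f := by
      rw [ZC_coresK H hir K psi hC' 8, sum_range_succ]
      have h2 := key (a := 8) (m := 0) (n := 8) (by omega) le_rfl (by omega)
      rw [if_pos rfl, JK_zero H hir hC' fs] at h2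
      rw [Nat.sub_self, add_sub_assoc]
      refine dvd_add (dvd_sum fun a ha => ?_) h2
      rw [mem_range] at ha
      have h3 := key (a := a) (m := 8 - a) (n := 8) (by omega) (by omega) (by omega)
      rw [if_neg (by omega), sub_zero] at h3
      exact h3
    have h2 := coeff_zero_of_dvd h1 (k := 2) (by norm_num)
    rw [map_sub, sub_eq_zero] at h2
    rw [h2, fv]

end

end Pool.Agent.GaussPoset.Win.Kd
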