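import Pool.Agent.W_448ut_h16.XcB
import Pool.Agent.W_448w4_h10.KA

/-!
MP_448cb3_co, G2, case B, Route T, block (K): the two sums.  helper61 (text: helper10).

`Cls`: a class of configurations closed under an exchange `xc d x` (helper16) and under labels on the free
near elements.  The cores of such a class cancel in pairs to one order more.
-/

namespace Pool.Agent.GaussPoset.Win.Kd

set_option linter.unusedSectionVars false
set_option linter.unusedVariables false

open Finset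
open Pool.Agent.GaussPoset.Win.W4 (RK GK JK mem_RK RK_near JK_zero JK_dvd ZC_coresK)
open Pool.Agent.GaussPoset.Win.I2 (coeff_zero_of_dvd dvd_of_coeff)
open Pool.Agent.GaussPoset.Win.So (IV_Fe)

universe u

variable {P : Type u} [Fintype P] [PartialOrder P] [DecidableEq P] {r i : ℕ}
  {e f : P → ℕ} {psi : P → P} {C K : Finset P}

/-! ### sums with an involution -/

/-- a sum with an involution without fixed points whose pairs are divisible -/
theorem dvd_sum_inv {α : Type*} (s : Finset α) (F : α → A) (g : α → α)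
    (h1 : ∀ a ∈ s, g a ∈ s) (h2 : ∀ a ∈ s, g (g a) = a) (h3 : ∀ a ∈ s, g a ≠ a) {n : ℕ}
    (h4 : ∀ a ∈ s, dd ^ n ∣ F a + F (g a)) : dd ^ n ∣ ∑ a ∈ s, F a := by
  apply dvd_of_coeff
  intro k hk
  rw [map_sum]
  refine Finset.sum_involution (fun a _ => g a) ?_ ?_ ?_ ?_
  · intro a ha
    have := coeff_zero_of_dvd (h4 a ha) hk
    rwa [map_add] at this
  · intro a ha _
    exact h3 a ha
  · intro a ha
    exact h1 a ha
  · intro a ha
    exact h2 a ha

/-! ### the contribution of a core as a sum -/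

theorem JK_sum (H : Gr P r) (hir : i ≤ r) (hC : Part i C) (h3 : IsCore i K psi e) (h2 : Spt C e)
    (m : ℕ) : JK i K psi C m e = ∑ l ∈ (RK i K psi C e).piAntidiag m, tC i C (e + l) := by
  have h4 : ∀ l ∈ (RK i K psi C e).piAntidiag m, tC i C (e + l) =
      So.IV (st i C) (fun S => Fe i e S * ∏ x ∈ RK i K psi C e, wt i e x (l x) S) := by
    intro l hl
    rw [I2.mem_pa] at hl
    have hs : Spt C (e + l) := by
      intro x hx
      rw [Pi.add_apply, h2 x hx, hl.2 x (fun h => hx (mem_RK.1 h).2)]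
    rw [← IV_Fe H hC hs]
    congr 1
    funext S
    refine fact_many H hir (RK i K psi C e) (fun x hx => RK_near hx) (fun x hx => ?_)
      (fun x hx => ?_) l hl.2 S
    · exact (mem_Rst.1 (mem_RK.1 hx).1).2.2.1
    · exact h3 x (mem_RK.1 hx).1
  rw [Finset.sum_congr rfl h4]
  unfold JK GK So.IV
  rw [Finset.sum_comm]
  refine Finset.sum_congr rfl fun S _ => ?_
  rw [← Finset.mul_sum, ← Finset.mul_sum]

/-- the term of a cheap configuration -/
theorem tC_dvd (H : Gr P r) (hi : 1 ≤ i) (hi2 : i + 1 ≤ r) (hM : Mat P i K psi)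
    (hC : Part (i + 1) C) (he : Spt C e) {k : ℕ} (hk : Cheap k i e) :
    dd ^ ((st i C).card - k) ∣ tC i C e := by
  have hC' : Part i C := ⟨fun h1 h2 => hC.up h1 h2, fun h1 h2 h3 => hC.dn h1 (by omega) h3⟩
  rw [← JK_zero (K := K) (psi := psi) H (by omega) hC' he]
  exact JK_dvd H hi hi2 hM hC (Rk_of_cheap hk) 0

/-! ### the classes -/

/-- a class of configurations closed under an exchange and under labels on the free near elements -/
structure Cls (i : ℕ) (K : Finset P) (psi : P → P) (C : Finset P) (d x : P)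
    (F : (P → ℕ) → Prop) : Prop where
  lx : lev x = i
  ld : lev d = i + 2 ∨ lev d + 2 = i
  one : ∀ e, F e → 1 ≤ e d
  cl : ∀ e, Spt C e → F e → F (xc d x e) ∧ xc d x (xc d x e) = e ∧ xc d x e ≠ e ∧
    ((∃ c, tC i C e + tC i C (xc d x e) = dd * (c * tC i C e)) ∨
      ∃ c, tC i C e + tC i C (xc d x e) = dd * (c * tC i C (xc d x e)))
  spt : ∀ e, Spt C e → F e → Spt C (xc d x e) ∧ ∑ y, xc d x e y = ∑ y, e y
  add : ∀ e l, Spt C e → F e → (∀ y, y ∉ RK i K psi C e → l y = 0) → F (e + l)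

section cls

variable {d x : P} {F : (P → ℕ) → Prop}

lemma Cls.ne (Q : Cls i K psi C d x F) : x ≠ d := by
  rintro rfl
  have := Q.lx
  have := Q.ld
  omega

/-- the touched elements do not change -/
lemma Cls.tch (Q : Cls i K psi C d x F) (H : Gr P r) (h : F e) : Tch i (xc d x e) = Tch i e := by
  have h1 := Q.one e h
  have lx := Q.lx
  have key : ∀ w, lev w ≠ i → (0 < xc d x e w ↔ 0 < e w) := by
    intro w hw
    by_cases hd : w = d
    · subst hd
      rw [xc_d]
      omega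
    · rw [xc_of hd (by rintro rfl; omega)]
  ext y
  rw [mem_Tch, mem_Tch]
  constructor
  · rintro (⟨a, z, hz, h2⟩ | ⟨a, z, hz, h2⟩)
    · have := lev_dc H (mem_dc.2 hz)
      exact Or.inl ⟨a, z, hz, (key z (by omega)).1 h2⟩
    · have := lev_uc H (mem_uc.2 hz)
      exact Or.inr ⟨a, z, hz, (key z (by omega)).1 h2⟩
  · rintro (⟨a, z, hz, h2⟩ | ⟨a, z, hz, h2⟩)
    · have := lev_dc H (mem_dc.2 hz)
      exact Or.inl ⟨a, z, hz, (key z (by omega)).2 h2⟩
    · have := lev_uc H (mem_uc.2 hz)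
      exact Or.inr ⟨a, z, hz, (key z (by omega)).2 h2⟩

lemma Cls.rst (Q : Cls i K psi C d x F) (H : Gr P r) (h : F e) :
    Rst i K psi (xc d x e) = Rst i K psi e := by
  ext y
  rw [mem_Rst, mem_Rst, Q.tch H h]

lemma Cls.rk (Q : Cls i K psi C d x F) (H : Gr P r) (h : F e) :
    RK i K psi C (xc d x e) = RK i K psi C e := by
  ext y
  rw [mem_RK, mem_RK, Q.rst H h]

lemma Cls.near_ne (Q : Cls i K psi C d x F) {y : P} (hy : y ∈ near P i) : y ≠ d ∧ y ≠ x := by
  have h1 := mem_near.1 hy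
  have := Q.lx
  have := Q.ld
  constructor
  · rintro rfl
    omega
  · rintro rfl
    omega

lemma Cls.core (Q : Cls i K psi C d x F) (H : Gr P r) (h : F e) (hc : IsCore i K psi e) :
    IsCore i K psi (xc d x e) := by
  intro y hy
  rw [Q.rst H h] at hy
  obtain ⟨h1, h2⟩ := Q.near_ne (mem_Rst.1 hy).1
  rw [xc_of h1 h2]
  exact hc y hy

/-- labels on the free near elements and the exchange -/
lemma Cls.xc_add (Q : Cls i K psi C d x F) (h : F e) {l : P → ℕ}
    (hl : ∀ y, y ∉ RK i K psi C e → l y = 0) : xc d x (e + l) = xc d x e + l := by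
  have h1 := Q.one e h
  have hd : l d = 0 := hl d fun h => (Q.near_ne (RK_near h)).1 rfl
  have hx : l x = 0 := hl x fun h => (Q.near_ne (RK_near h)).2 rfl
  have hne := Q.ne
  funext y
  rw [Pi.add_apply]
  by_cases h2 : y = d
  · subst h2
    rw [xc_d, xc_d, Pi.add_apply, hx, hd]
  · by_cases h3 : y = x
    · subst h3
      rw [xc_x hne, xc_x hne, Pi.add_apply, hd, hx]
      omega
    · rw [xc_of h2 h3, xc_of h2 h3, Pi.add_apply]

/-- a pair of cores -/
theorem Cls.pair (Q : Cls i K psi C d x F) (H : Gr P r) (hir : i ≤ r) (hC : Part i C)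
    (h : F e) (hc : IsCore i K psi e) (hs : Spt C e) {m s n : ℕ}
    (hn : ∑ y, e y + m = n) (ht : ∀ e, Spt C e → ∑ y, e y = n → dd ^ s ∣ tC i C e) :
    dd ^ (s + 1) ∣ JK i K psi C m e + JK i K psi C m (xc d x e) := by
  obtain ⟨hs', hsum⟩ := Q.spt e hs h
  rw [JK_sum H hir hC hc hs, JK_sum H hir hC (Q.core H h hc) hs', Q.rk H h, ← sum_add_distrib]
  refine dvd_sum fun l hl => ?_
  rw [I2.mem_pa] at hl
  have hl0 : ∀ y, y ∉ RK i K psi C e → l y = 0 := hl.2
  have hF := Q.add e l hs h hl0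
  have hsl : Spt C (e + l) := by
    intro y hy
    rw [Pi.add_apply, hs y hy, hl0 y fun h => hy (mem_RK.1 h).2]
  have hsl' : Spt C (xc d x e + l) := by
    intro y hy
    rw [Pi.add_apply, hs' y hy, hl0 y fun h => hy (mem_RK.1 h).2]
  have e1 : ∑ y, (e + l) y = n := by
    simp only [Pi.add_apply]
    rw [sum_add_distrib, hl.1, hn]
  have e2 : ∑ y, (xc d x e + l) y = n := by
    simp only [Pi.add_apply]
    rw [sum_add_distrib, hl.1, hsum, hn]
  rw [← Q.xc_add h hl0] at hsl' e2 ⊢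
  obtain ⟨-, -, -, ⟨c, hc'⟩ | ⟨c, hc'⟩⟩ := Q.cl _ hsl hF
  · rw [hc', pow_succ, mul_comm (dd ^ s)]
    exact mul_dvd_mul_left dd (Dvd.dvd.mul_left (ht _ hsl e1) c)
  · rw [hc', pow_succ, mul_comm (dd ^ s)]
    exact mul_dvd_mul_left dd (Dvd.dvd.mul_left (ht _ hsl' e2) c)

open Classical in
/-- THE SUM OVER A CLASS -/
theorem Cls.sum (Q : Cls i K psi C d x F) (H : Gr P r) (hir : i ≤ r) (hC : Part i C)
    {q m s n : ℕ} (hn : q + m = n) (ht : ∀ e, Spt C e → ∑ y, e y = n → dd ^ s ∣ tC i C e) :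
    dd ^ (s + 1) ∣ ∑ e ∈ ((C.piAntidiag q).filter (IsCore i K psi)).filter F,
      JK i K psi C m e := by
  have hm : ∀ e, e ∈ ((C.piAntidiag q).filter (IsCore i K psi)).filter F ↔
      (∑ y, e y = q ∧ Spt C e) ∧ IsCore i K psi e ∧ F e := by
    intro e
    rw [mem_filter, mem_filter, I2.mem_pa, and_assoc]
  apply dvd_sum_inv _ _ (xc d x)
  · intro e he
    obtain ⟨⟨h1, h2⟩, h3, h4⟩ := (hm e).1 he
    obtain ⟨h5, h6⟩ := Q.spt e h2 h4
    exact (hm _).2 ⟨⟨by rw [h6, h1], h5⟩, Q.core H h4 h3, (Q.cl e h2 h4).1⟩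
  · intro e he
    obtain ⟨⟨h1, h2⟩, h3, h4⟩ := (hm e).1 he
    exact (Q.cl e h2 h4).2.1
  · intro e he
    obtain ⟨⟨h1, h2⟩, h3, h4⟩ := (hm e).1 he
    exact (Q.cl e h2 h4).2.2.1
  · intro e he
    obtain ⟨⟨h1, h2⟩, h3, h4⟩ := (hm e).1 he
    exact Q.pair H hir hC h4 h3 h2 (by rw [h1]; exact hn) ht

end cls

/-! ### the classes of an exchange -/

section inst

variable {d w w2 p x q : P}

lemma sum_univ_xc (h : x ≠ d) (h1 : 1 ≤ e d) : ∑ y, xc d x e y = ∑ y, e y :=
  sum_xc (C := univ) h (mem_univ d) (mem_univ x) h1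

/-- the near elements over or below `x` are not free -/
lemma notRK_low (H : Gr P r) (hM : Mat P i K psi) (S : XcL i d w w2 p x q e)
    (hN : ∀ u ∈ uc x, u ∈ dbU P i ∧ u ∉ K) {y : P}
    (hy : y = w ∨ y = w2 ∨ y ∈ uc x) : y ∉ RK i K psi C e := by
  obtain ⟨l1, l2, l3, l4, l5⟩ := S.lv H
  have ld := S.ld
  have h1 := S.lab.one
  have tw : w ∈ Tch i e ∧ w2 ∈ Tch i e := by
    constructor
    · refine mem_Tch.2 (Or.inl ⟨l1, d, mem_uc.1 (by rw [S.ucd]; simp), h1⟩)
    · refine mem_Tch.2 (Or.inl ⟨l2, d, mem_uc.1 (by rw [S.ucd]; simp), h1⟩)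
  intro h
  have hR := mem_Rst.1 (mem_RK.1 h).1
  rcases hy with rfl | rfl | hy
  · exact hR.2.2.1 tw.1
  · exact hR.2.2.1 tw.2
  · obtain ⟨g1, g2⟩ := hN y hy
    obtain ⟨g3, g4⟩ := hM.upp y g1 g2
    apply hR.2.2.2
    refine ⟨mem_union_right _ g1, ?_⟩
    have g5 : x ∈ uc (psi y) := by
      rw [g4]
      exact mem_dc.2 (mem_uc.1 hy)
    have g6 : psi y ∈ dc x := mem_dc.2 (mem_uc.1 g5)
    rw [S.dcx, mem_insert, mem_singleton] at g6
    rcases g6 with g6 | g6
    · rw [g6]; exact tw.1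
    · rw [g6]; exact tw.2

lemma XcL.add (H : Gr P r) (hM : Mat P i K psi) (S : XcL i d w w2 p x q e)
    (hN : ∀ u ∈ uc x, u ∈ dbU P i ∧ u ∉ K) {l : P → ℕ}
    (hl : ∀ y, y ∉ RK i K psi C e → l y = 0) : XcL i d w w2 p x q (e + l) := by
  obtain ⟨l1, l2, l3, l4, l5⟩ := S.lv H
  have ld := S.ld
  have far : ∀ y, lev y ≠ i + 1 → lev y + 1 ≠ i → l y = 0 := by
    intro y h1 h2
    refine hl y fun h => ?_
    have := mem_near.1 (RK_near h)
    omega
  have nw : l w = 0 := hl w (notRK_low H hM S hN (Or.inl rfl))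
  have nw2 : l w2 = 0 := hl w2 (notRK_low H hM S hN (Or.inr (Or.inl rfl)))
  have nd : l d = 0 := far d (by omega) (by omega)
  have nx : l x = 0 := far x (by omega) (by omega)
  refine ⟨S.ld, S.ucd, S.ucw, S.ucw2, S.dcx, S.ne, S.px, S.xq, ?_, ?_, ?_, ?_, ?_, ?_⟩
  · have h1 := S.lab
    unfold Lab at h1 ⊢
    simp only [Pi.add_apply, nw, nw2, nd, nx, add_zero]
    exact h1
  · rw [Pi.add_apply, S.p0, far p (by omega) (by omega)]
  · rw [Pi.add_apply, S.q0, far q (by omega) (by omega)]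
  · intro t ht
    have := lev_dc H ht
    rw [Pi.add_apply, far t (by omega) (by omega), add_zero]
    exact S.t1 t ht
  · intro d2 hd2 hne
    have hl2 : lev d2 = i + 2 := by
      rcases mem_union.1 hd2 with h1 | h1
      · have := lev_dc H h1
        omega
      · have := lev_dc H h1
        omega
    rw [Pi.add_apply, far d2 (by omega) (by omega), add_zero]
    exact S.o1 d2 hd2 hne
  · intro u hu
    rw [Pi.add_apply, S.u0 u hu, hl u (notRK_low H hM S hN (Or.inr (Or.inr hu)))]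

/-- the class of an exchange below the window, `E` a further element with label zero or not -/
theorem cls_low (H : Gr P r) (hM : Mat P i K psi) (hC : Part i C) (hx : lev x = i)
    (hd : lev d = i + 2) (hN : ∀ u ∈ uc x, u ∈ dbU P i ∧ u ∉ K) :
    Cls i K psi C d x (fun e => XcL i d w w2 p x q e) where
  lx := hx
  ld := Or.inl hd
  one := fun e S => S.lab.one
  cl := fun e hs S => S.main H hC hs
  spt := fun e hs S => ⟨(S.spt H hC hs).2.2, sum_univ_xc (S.x_ne H) S.lab.one⟩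
  add := fun e l _ S hl => S.add H hM hN hl

theorem cls_low0 (H : Gr P r) (hM : Mat P i K psi) (hC : Part i C) (hx : lev x = i)
    (hd : lev d = i + 2) (hN : ∀ u ∈ uc x, u ∈ dbU P i ∧ u ∉ K) {E : P} (hE : lev E = i + 2)
    (hne : E ≠ d) :
    Cls i K psi C d x (fun e => XcL i d w w2 p x q e ∧ e E = 0) where
  lx := hx
  ld := Or.inl hd
  one := fun e S => S.1.lab.one
  cl := fun e hs S => by
    obtain ⟨h1, h2⟩ := S.1.main H hC hs
    refine ⟨⟨h1, ?_⟩, h2⟩
    rw [xc_of hne (by rintro rfl; omega)]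
    exact S.2
  spt := fun e hs S => ⟨(S.1.spt H hC hs).2.2, sum_univ_xc (S.1.x_ne H) S.1.lab.one⟩
  add := fun e l _ S hl => by
    refine ⟨S.1.add H hM hN hl, ?_⟩
    rw [Pi.add_apply, S.2, hl E fun h => ?_]
    have := mem_near.1 (RK_near h)
    omega

/-- the near elements over or below `x` are not free, upper side -/
lemma notRK_upp (H : Gr P r) (hM : Mat P i K psi) (S : XcU i d w w2 p x q e)
    (hN : ∀ u ∈ dc x, u ∈ dbL P i ∧ u ∉ K) {y : P}
    (hy : y = w ∨ y = w2 ∨ y ∈ dc x) : y ∉ RK i K psi C e := by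
  obtain ⟨l1, l2, l3, l4, l5⟩ := S.lv H
  have ld := S.ld
  have h1 := S.lab.one
  have tw : w ∈ Tch i e ∧ w2 ∈ Tch i e := by
    constructor
    · refine mem_Tch.2 (Or.inr ⟨l1, d, mem_dc.1 (by rw [S.dcd]; simp), h1⟩)
    · refine mem_Tch.2 (Or.inr ⟨l2, d, mem_dc.1 (by rw [S.dcd]; simp), h1⟩)
  intro h
  have hR := mem_Rst.1 (mem_RK.1 h).1
  rcases hy with rfl | rfl | hy
  · exact hR.2.2.1 tw.1
  · exact hR.2.2.1 tw.2
  · obtain ⟨g1, g2⟩ := hN y hy
    obtain ⟨g3, g4⟩ := hM.low y g1 g2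
    apply hR.2.2.2
    refine ⟨mem_union_left _ g1, ?_⟩
    have g5 : x ∈ dc (psi y) := by
      rw [g4]
      exact mem_uc.2 (mem_dc.1 hy)
    have g6 : psi y ∈ uc x := mem_uc.2 (mem_dc.1 g5)
    rw [S.ucx, mem_insert, mem_singleton] at g6
    rcases g6 with g6 | g6
    · rw [g6]; exact tw.1
    · rw [g6]; exact tw.2

lemma XcU.add (H : Gr P r) (hM : Mat P i K psi) (S : XcU i d w w2 p x q e)
    (hN : ∀ u ∈ dc x, u ∈ dbL P i ∧ u ∉ K) {l : P → ℕ}
    (hl : ∀ y, y ∉ RK i K psi C e → l y = 0) : XcU i d w w2 p x q (e + l) := by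
  obtain ⟨l1, l2, l3, l4, l5⟩ := S.lv H
  have ld := S.ld
  have far : ∀ y, lev y ≠ i + 1 → lev y + 1 ≠ i → l y = 0 := by
    intro y h1 h2
    refine hl y fun h => ?_
    have := mem_near.1 (RK_near h)
    omega
  have nw : l w = 0 := hl w (notRK_upp H hM S hN (Or.inl rfl))
  have nw2 : l w2 = 0 := hl w2 (notRK_upp H hM S hN (Or.inr (Or.inl rfl)))
  have nd : l d = 0 := far d (by omega) (by omega)
  have nx : l x = 0 := far x (by omega) (by omega)
  refine ⟨S.ld, S.dcd, S.dcw, S.dcw2, S.ucx, S.ne, S.px, S.xq, ?_, ?_, ?_, ?_, ?_, ?_⟩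
  · have h1 := S.lab
    unfold Lab at h1 ⊢
    simp only [Pi.add_apply, nw, nw2, nd, nx, add_zero]
    exact h1
  · rw [Pi.add_apply, S.p0, far p (by omega) (by omega)]
  · rw [Pi.add_apply, S.q0, far q (by omega) (by omega)]
  · intro t ht
    have := lev_uc H ht
    rw [Pi.add_apply, far t (by omega) (by omega), add_zero]
    exact S.t1 t ht
  · intro d2 hd2 hne
    have hl2 : lev d2 + 2 = i := by
      rcases mem_union.1 hd2 with h1 | h1
      · have := lev_uc H h1
        omega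
      · have := lev_uc H h1
        omega
    rw [Pi.add_apply, far d2 (by omega) (by omega), add_zero]
    exact S.o1 d2 hd2 hne
  · intro u hu
    rw [Pi.add_apply, S.u0 u hu, hl u (notRK_upp H hM S hN (Or.inr (Or.inr hu)))]

/-- the class of an exchange above the window -/
theorem cls_upp (H : Gr P r) (hM : Mat P i K psi) (hC : Part i C) (hx : lev x = i)
    (hd : lev d + 2 = i) (hN : ∀ u ∈ dc x, u ∈ dbL P i ∧ u ∉ K) :
    Cls i K psi C d x (fun e => XcU i d w w2 p x q e) where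
  lx := hx
  ld := Or.inr hd
  one := fun e S => S.lab.one
  cl := fun e hs S => S.main H hC hs
  spt := fun e hs S => ⟨(S.spt H hC hs).2.2, sum_univ_xc (S.x_ne H) S.lab.one⟩
  add := fun e l _ S hl => S.add H hM hN hl

end inst

end Pool.Agent.GaussPoset.Win.Kd
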